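import Mathlib
import Pool.Agent.H72.EQQ.Targets
import Pool.Agent.H32.EQR.CRM

set_option autoImplicit false

open Pool.Agent.H71.EQ Pool.Agent.H72.EQQ

namespace Pool.Agent.H32.EQQ

/-- periodic modulo a divisor -/
theorem per_dvd {k d W : ℕ} {A : (Fin k → ℤ) → Prop} (h : d ∣ W)
    (hA : ∀ v u : Fin k → ℤ, A (fun i => v i + (d : ℤ) * u i) ↔ A v) (v u : Fin k → ℤ) :
    A (fun i => v i + (W : ℤ) * u i) ↔ A v := by
  obtain ⟨c, rfl⟩ := h
  have h4 : (fun i => v i + ((d * c : ℕ) : ℤ) * u i) =
      fun i => v i + (d : ℤ) * ((c : ℤ) * u i) := by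
    funext i
    push_cast
    ring
  rw [h4]
  exact hA v _

/-- counting by the Chinese remainder theorem for a family of local conditions -/
theorem main_gen (k : ℕ) (e : ℕ → ℕ) (A : ℕ → (Fin k → ℤ) → Prop) (c : ℕ → ℝ) :
    ∀ S : Finset ℕ, (∀ p ∈ S, p.Prime) →
    (∀ p ∈ S, ∀ v u : Fin k → ℤ, A p (fun i => v i + ((p ^ e p : ℕ) : ℤ) * u i) ↔ A p v) →
    (∀ p ∈ S, ({v : Fin k → ZMod (p ^ e p) | A p (fun i => ((v i).val : ℤ))}.ncard : ℝ) =
      c p * ((p ^ e p : ℕ) : ℝ) ^ k) →
    ∀ W : ℕ, W = ∏ p ∈ S, p ^ e p →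
    ({v : Fin k → ZMod W | ∀ p ∈ S, A p (fun i => ((v i).val : ℤ))}.ncard : ℝ) =
      (∏ p ∈ S, c p) * (W : ℝ) ^ k := by
  classical
  intro S
  induction S using Finset.induction_on with
  | empty =>
    intro _ _ _ W hW
    rw [Finset.prod_empty] at hW
    subst hW
    have h : {v : Fin k → ZMod 1 | ∀ p ∈ (∅ : Finset ℕ), A p (fun i => ((v i).val : ℤ))} =
        Set.univ := by
      ext v
      simp
    rw [h, Set.ncard_univ]
    simp
  | @insert q S hq ih =>
    intro hS hper hcnt W hW
    rw [Finset.prod_insert hq] at hW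
    have hqS := Finset.mem_insert_self q S
    have hqp : q.Prime := hS q hqS
    have hS' : ∀ p ∈ S, p.Prime := fun p hp => hS p (Finset.mem_insert_of_mem hp)
    have hco : (q ^ e q).Coprime (∏ p ∈ S, p ^ e p) := by
      refine Nat.Coprime.prod_right fun p hp => ?_
      refine Nat.Coprime.pow _ _ ?_
      refine (Nat.coprime_primes hqp (hS' p hp)).2 ?_
      rintro rfl
      exact hq hp
    have hm : q ^ e q ≠ 0 := pow_ne_zero _ hqp.ne_zero
    have hn : (∏ p ∈ S, p ^ e p) ≠ 0 :=
      Finset.prod_ne_zero_iff.2 fun p hp => pow_ne_zero _ (hS' p hp).ne_zero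
    subst hW
    have h3 := Pool.Agent.H32.EQR.crt_card (k := k) hm hn hco
      (A := fun v => A q v) (B := fun v => ∀ p ∈ S, A p v)
      (hper q hqS)
      (fun v u => forall₂_congr fun p hp =>
        per_dvd (Finset.dvd_prod_of_mem (fun p => p ^ e p) hp)
          (hper p (Finset.mem_insert_of_mem hp)) v u)
    have h5 : {v : Fin k → ZMod (q ^ e q * ∏ p ∈ S, p ^ e p) |
        ∀ p ∈ insert q S, A p (fun i => ((v i).val : ℤ))} =
        {v : Fin k → ZMod (q ^ e q * ∏ p ∈ S, p ^ e p) |
        A q (fun i => ((v i).val : ℤ)) ∧ ∀ p ∈ S, A p (fun i => ((v i).val : ℤ))} := by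
      ext v
      constructor
      · intro h
        exact ⟨h q hqS, fun p hp => h p (Finset.mem_insert_of_mem hp)⟩
      · rintro ⟨ha, hb⟩ p hp
        rcases Finset.mem_insert.1 hp with rfl | hp
        · exact ha
        · exact hb p hp
    rw [h5, h3, Nat.cast_mul, hcnt q hqS,
      ih hS' (fun p hp => hper p (Finset.mem_insert_of_mem hp))
        (fun p hp => hcnt p (Finset.mem_insert_of_mem hp)) _ rfl, Finset.prod_insert hq,
      Nat.cast_mul, mul_pow]
    ring

/-- the complement -/
theorem compl_card (h2 : T_LOC) (k p : ℕ) (hk : 1 ≤ k) (hp : p.Prime) :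
    ({v : Fin k → ZMod (p ^ (0 + 2)) | ¬ Loc p 0 (ext fun i => ((v i).val : ℤ))}.ncard : ℝ) =
      (1 - wloc (k + 1) p 0) * ((p ^ (0 + 2) : ℕ) : ℝ) ^ k := by
  classical
  have : NeZero (p ^ (0 + 2)) := ⟨pow_ne_zero _ hp.ne_zero⟩
  have h := Set.ncard_add_ncard_compl
    {v : Fin k → ZMod (p ^ (0 + 2)) | Loc p 0 (ext fun i => ((v i).val : ℤ))}
  rw [Nat.card_eq_fintype_card, Fintype.card_fun, ZMod.card, Fintype.card_fin] at h
  have h3 := h2 k p 0 hk hp
  have h4 : ({v : Fin k → ZMod (p ^ (0 + 2)) | Loc p 0 (ext fun i => ((v i).val : ℤ))}.ncard : ℝ) +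
      ({v : Fin k → ZMod (p ^ (0 + 2)) | Loc p 0 (ext fun i => ((v i).val : ℤ))}ᶜ.ncard : ℝ) =
      ((p ^ (0 + 2) : ℕ) : ℝ) ^ k := by exact_mod_cast h
  have h5 : {v : Fin k → ZMod (p ^ (0 + 2)) | ¬ Loc p 0 (ext fun i => ((v i).val : ℤ))} =
      {v : Fin k → ZMod (p ^ (0 + 2)) | Loc p 0 (ext fun i => ((v i).val : ℤ))}ᶜ := rfl
  rw [h5]
  rw [h3] at h4
  push_cast at h4 ⊢
  linarith

theorem pf_CRB (h1 : T_PER) (h2 : T_LOC) : T_CRB := by
  classical
  intro k E m hk hE hsq hco
  have hm0 : m ≠ 0 := hsq.ne_zero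
  have hper : ∀ p j : ℕ, ∀ v u : Fin k → ℤ,
      Loc p j (ext fun i => v i + ((p ^ (j + 2) : ℕ) : ℤ) * u i) ↔ Loc p j (ext v) := by
    intro p j v u
    have := h1 k p j v u
    push_cast
    exact this
  have hdE : ∀ p : ℕ, p.Prime → p ∣ E → p ^ (E.factorization p + 2) ∣ qE E * m ^ 2 :=
    fun p hp hpE => Dvd.dvd.mul_right
      (Finset.dvd_prod_of_mem (fun p => p ^ (E.factorization p + 2))
        (Nat.mem_primeFactors.2 ⟨hp, hpE, by omega⟩)) _
  have hdm : ∀ p : ℕ, p ∣ m → p ^ (0 + 2) ∣ qE E * m ^ 2 :=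
    fun p h => Dvd.dvd.mul_left (pow_dvd_pow_of_dvd h 2) _
  refine ⟨fun v u => ?_, ?_⟩
  · refine and_congr (forall_congr' fun p => forall_congr' fun hp => forall_congr' fun hpE =>
      per_dvd (A := fun v => Loc p (E.factorization p) (ext v)) (hdE p hp hpE) (hper p _) v u)
      (forall_congr' fun p => forall_congr' fun hp => forall_congr' fun hpm => not_congr
      (per_dvd (A := fun v => Loc p 0 (ext v)) (hdm p hpm) (hper p 0) v u))
  · have hdis : Disjoint E.primeFactors m.primeFactors := (Nat.Coprime.disjoint_primeFactors hco).symm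
    have hmE : ∀ p ∈ m.primeFactors, ¬ p ∣ E := by
      intro p hp hpE
      have hp1 := (Nat.mem_primeFactors.1 hp)
      exact Finset.disjoint_left.1 hdis (Nat.mem_primeFactors.2 ⟨hp1.1, hpE, by omega⟩) hp
    have hEd : ∀ p ∈ E.primeFactors, p ∣ E := fun p hp => (Nat.mem_primeFactors.1 hp).2.1
    have hW : qE E * m ^ 2 = ∏ p ∈ E.primeFactors ∪ m.primeFactors,
        p ^ (E.factorization p + 2) := by
      rw [Finset.prod_union hdis]
      congr 1
      have h6 : ∏ p ∈ m.primeFactors, p ^ (E.factorization p + 2) =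
          ∏ p ∈ m.primeFactors, p ^ 2 := by
        refine Finset.prod_congr rfl fun p hp => ?_
        rw [Nat.factorization_eq_zero_of_not_dvd (hmE p hp)]
      rw [h6, Finset.prod_pow, Nat.prod_primeFactors_of_squarefree hsq]
    have h := main_gen k (fun p => E.factorization p + 2)
      (fun p v => if p ∣ E then Loc p (E.factorization p) (ext v)
        else ¬ Loc p (E.factorization p) (ext v))
      (fun p => if p ∣ E then wloc (k + 1) p (E.factorization p)
        else 1 - wloc (k + 1) p (E.factorization p))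
      (E.primeFactors ∪ m.primeFactors)
      (fun p hp => by
        rcases Finset.mem_union.1 hp with hp | hp
        · exact (Nat.mem_primeFactors.1 hp).1
        · exact (Nat.mem_primeFactors.1 hp).1)
      (fun p hp v u => by
        by_cases hpE : p ∣ E
        · simp only [if_pos hpE]
          exact hper p _ v u
        · simp only [if_neg hpE]
          exact not_congr (hper p _ v u))
      (fun p hp => by
        have hpp : p.Prime := by
          rcases Finset.mem_union.1 hp with hp | hp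
          · exact (Nat.mem_primeFactors.1 hp).1
          · exact (Nat.mem_primeFactors.1 hp).1
        by_cases hpE : p ∣ E
        · simp only [if_pos hpE]
          rw [h2 k p _ hk hpp]
          push_cast
          rfl
        · simp only [if_neg hpE]
          rw [Nat.factorization_eq_zero_of_not_dvd hpE]
          exact compl_card h2 k p hk hpp)
      (qE E * m ^ 2) hW
    have hbd : bd k E m = ∏ p ∈ E.primeFactors ∪ m.primeFactors,
        (if p ∣ E then wloc (k + 1) p (E.factorization p)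
        else 1 - wloc (k + 1) p (E.factorization p)) := by
      rw [Finset.prod_union hdis]
      show (∏ p ∈ E.primeFactors, wloc (k + 1) p (E.factorization p)) *
        (∏ p ∈ m.primeFactors, (1 - wloc (k + 1) p 0)) = _
      congr 1
      · refine Finset.prod_congr rfl fun p hp => ?_
        rw [if_pos (hEd p hp)]
      · refine Finset.prod_congr rfl fun p hp => ?_
        rw [if_neg (hmE p hp), Nat.factorization_eq_zero_of_not_dvd (hmE p hp)]
    rw [hbd, ← h]
    congr 2
    ext v
    constructor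
    · rintro ⟨ha, hb⟩ p hp
      rcases Finset.mem_union.1 hp with hp | hp
      · rw [if_pos (hEd p hp)]
        exact ha p (Nat.mem_primeFactors.1 hp).1 (hEd p hp)
      · rw [if_neg (hmE p hp), Nat.factorization_eq_zero_of_not_dvd (hmE p hp)]
        exact hb p (Nat.mem_primeFactors.1 hp).1 (Nat.mem_primeFactors.1 hp).2.1
    · intro hv
      refine ⟨fun p hp hpE => ?_, fun p hp hpm => ?_⟩
      · have h7 := hv p (Finset.mem_union_left _ (Nat.mem_primeFactors.2 ⟨hp, hpE, by omega⟩))
        rw [if_pos hpE] at h7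
        exact h7
      · have hpf : p ∈ m.primeFactors := Nat.mem_primeFactors.2 ⟨hp, hpm, hm0⟩
        have h7 := hv p (Finset.mem_union_right _ hpf)
        rw [if_neg (hmE p hpf), Nat.factorization_eq_zero_of_not_dvd (hmE p hpf)] at h7
        exact h7

end Pool.Agent.H32.EQQ
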